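import Pool.Agent.T9h57.QD.Spec2
import Pool.Agent.T9h42.GF.Spec2

/-!
# Number fields: counting solutions of `A ε a + lam b = ε' c` in `𝓞 K` (the pieces)

`K` is a number field, `d = [K : ℚ]`; all scales are real numbers; all windows are Lipschitz
functions on `InfinitePlace K → ℂ` (sup norm, coordinatewise product).
Everything is modelled on `T9h57/QD/Spec2.lean` (the case `K = ℚ`).
-/

set_option autoImplicit false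

namespace Pool.Agent.T9h11.NF

open Finset NumberField Pool.Agent.T9h42.GF Pool.Agent.T9h57.QD

/-! ## 1. Definitions -/

section defs

variable (K : Type) [Field K] [NumberField K]

/-- the archimedean space. -/
abbrev Sp : Type := InfinitePlace K → ℂ

variable {K}

/-- the embedding of `K`. -/
noncomputable def E : K →+* Sp K := Pi.ringHom (fun v : InfinitePlace K => v.embedding)

/-- the norm: `nrm (E x) = |N(x)|`. -/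
noncomputable def nrm (z : Sp K) : ℝ := ∏ v : InfinitePlace K, ‖z v‖ ^ v.mult

/-- points of `(K ⊗ ℝ)^×`. -/
def RF (z : Sp K) : Prop := (∀ v, z v ≠ 0) ∧ ∀ v : InfinitePlace K, v.IsReal → (z v).im = 0

/-- Lipschitz functions of bounded support. -/
def LipF (L B : ℝ) (F : Sp K → ℝ) : Prop :=
  (∀ z z', |F z - F z'| ≤ L * ‖z - z'‖) ∧ ∀ z, F z ≠ 0 → ‖z‖ ≤ B

/-- window functions: Lipschitz, values in `[0,1]`, support in `c₁ ≤ |z_v| ≤ c₂`, not zero on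
`(K ⊗ ℝ)^×`. -/
def Adm (F : Sp K → ℝ) : Prop :=
  (∀ z, 0 ≤ F z ∧ F z ≤ 1) ∧ (∃ L, ∀ z z', |F z - F z'| ≤ L * ‖z - z'‖) ∧
    (∃ c₁ c₂, 0 < c₁ ∧ ∀ z, F z ≠ 0 → ∀ v, c₁ ≤ ‖z v‖ ∧ ‖z v‖ ≤ c₂) ∧ ∃ z, RF z ∧ F z ≠ 0

/-- `x` is prime to the ideal `M`. -/
def cop (x : 𝓞 K) (M : Ideal (𝓞 K)) : Prop := IsCoprime (Ideal.span {x}) M

/-- slot: the `x` prime to `M` with `x / D` in the support of `ρ`. -/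
def IsSlot (ρ : Sp K → ℝ) (M : Ideal (𝓞 K)) (D : ℝ) (S : Finset (𝓞 K)) : Prop :=
  ∀ x : 𝓞 K, x ∈ S ↔ cop x M ∧ ρ (D⁻¹ • E (x : K)) ≠ 0

/-- weight of logarithmic type. -/
noncomputable def wl (ρ : Sp K → ℝ) (D : ℝ) (x : 𝓞 K) : ℝ := ρ (D⁻¹ • E (x : K)) / nrm (E (x : K))

/-- weight of uniform type. -/
noncomputable def wu (ρ : Sp K → ℝ) (D : ℝ) (x : 𝓞 K) : ℝ := ρ (D⁻¹ • E (x : K))

/-- normalised weight. -/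
noncomputable def pr (f : 𝓞 K → ℝ) (S : Finset (𝓞 K)) (x : 𝓞 K) : ℝ := f x / ∑ y ∈ S, f y

/-- expectation of `f (x_1, ..., x_n)`, the `x_i` independent with probability `p` on `S`. -/
noncomputable def exk (n : ℕ) (S : Finset (𝓞 K)) (p : 𝓞 K → ℝ) (f : (Fin n → 𝓞 K) → ℝ) : ℝ :=
  ∑ x ∈ Fintype.piFinset (fun _ : Fin n => S), (∏ i, p (x i)) * f x

/-- Euler function of ideals. -/
noncomputable def phi (I : Ideal (𝓞 K)) : ℝ := (Nat.card (𝓞 K ⧸ I)ˣ : ℝ)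

/-- norm of ideals (as a real number). -/
noncomputable def nm (I : Ideal (𝓞 K)) : ℝ := (Ideal.absNorm I : ℝ)

/-- number of divisors. -/
noncomputable def nd (I : Ideal (𝓞 K)) : ℝ := (Nat.card {J : Ideal (𝓞 K) // J ∣ I} : ℝ)

/-- all prime ideals dividing `q` divide `M`. -/
def PD (q M : Ideal (𝓞 K)) : Prop := ∀ p : Ideal (𝓞 K), p.IsPrime → p ≠ ⊥ → p ∣ q → p ∣ M

/-- all prime ideals of norm `≤ w` divide `M`. -/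
def SmallDvd (w : ℕ) (M : Ideal (𝓞 K)) : Prop :=
  ∀ p : Ideal (𝓞 K), p.IsPrime → p ≠ ⊥ → Ideal.absNorm p ≤ w → p ∣ M

/-- conductor of an additive character of `𝓞 K` (largest ideal in the kernel). -/
def cond (χ : AddChar (𝓞 K) ℂ) : Ideal (𝓞 K) where
  carrier := {x | ∀ y, χ (y * x) = 1}
  add_mem' := by
    intro a b ha hb y
    rw [mul_add, AddChar.map_add_eq_mul, ha y, hb y, one_mul]
  zero_mem' := by intro y; simp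
  smul_mem' := by
    intro c x hx y
    have := hx (y * c)
    rwa [mul_assoc] at this

end defs

/-! ## 2. Lattice points -/

section lattice

variable (K : Type) [Field K] [NumberField K]

/-- PIECE `LatK`. (a) coordinates of `x` in a `ℤ`-basis of `𝓞 K` are `≤ C ‖E x‖`. (b) Minkowski
(`mixedEmbedding.exists_ne_zero_mem_ideal_lt`, or pigeonhole). (c) `|N x| = nrm (E x) ≤ ‖E x‖^d`
(`InfinitePlace.prod_eq_abs_norm`) and `N I ∣ N x`. (d) by (c) distinct points of the set have distance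
`≥ s` with `s^d = N I`; volume, or: pigeonhole with the coordinates of (a): cells of side `c s`. -/
def LatK : Prop := ∃ C : ℝ, 1 ≤ C ∧
  (∀ (B : ℝ) (S : Finset (𝓞 K)), 0 ≤ B → (∀ x ∈ S, ‖E (x : K)‖ ≤ B) →
    (S.card : ℝ) ≤ C * (B + 1) ^ Module.finrank ℚ K) ∧
  (∀ (I : Ideal (𝓞 K)) (s : ℝ), I ≠ ⊥ → 0 < s → nm I ≤ s ^ Module.finrank ℚ K →
    ∃ t ∈ I, t ≠ 0 ∧ ‖E (t : K)‖ ≤ C * s) ∧
  (∀ (I : Ideal (𝓞 K)) (x : 𝓞 K), x ∈ I → x ≠ 0 →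
    nm I ≤ nrm (E (x : K)) ∧ nrm (E (x : K)) ≤ ‖E (x : K)‖ ^ Module.finrank ℚ K) ∧
  (∀ (I : Ideal (𝓞 K)) (s B : ℝ) (κ : 𝓞 K) (S : Finset (𝓞 K)), I ≠ ⊥ → 0 < s →
    s ^ Module.finrank ℚ K = nm I → 0 ≤ B → (∀ x ∈ S, x - κ ∈ I ∧ ‖E (x : K)‖ ≤ B) →
    (S.card : ℝ) ≤ C * (1 + B / s) ^ Module.finrank ℚ K)

/-- PIECE `AbelK`: periodic functions with mean `0` against Lipschitz functions. By `LatK` (b) there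
is `t ∈ T`, `t ≠ 0`, `‖E t‖ ≤ C s`. Fix a `ℤ`-basis `ω` of `𝓞 K`; every `x` is uniquely `t y + ϱ`,
`y ∈ 𝓞 K`, `ϱ ∈ R = {x : x/t ∈ ∑ [0,1) ω_i}`, `‖E ϱ‖ ≤ C' s`. As `g` has mean `0` modulo `(t)`, too,
`∑ g(x) F(E x) = ∑_y ∑_ϱ g(ϱ) (F(E(t y + ϱ)) - F(E(t y)))`, a term is `≤ L C' s |g(t y + ϱ)|` and is `0`
unless `‖E(t y + ϱ)‖ ≤ B + C' s`. -/
def AbelK : Prop := ∃ C : ℝ, 1 ≤ C ∧
  ∀ (T : Ideal (𝓞 K)) (s : ℝ), T ≠ ⊥ → 0 < s → nm T ≤ s ^ Module.finrank ℚ K →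
  ∀ [Fintype (𝓞 K ⧸ T)] (g : 𝓞 K ⧸ T → ℂ), ∑ q, g q = 0 →
  ∀ (F : Sp K → ℝ) (L B : ℝ), 0 ≤ L → 0 ≤ B → LipF L B F → ∀ S S' : Finset (𝓞 K),
    (∀ x : 𝓞 K, F (E (x : K)) ≠ 0 → x ∈ S) → (∀ x : 𝓞 K, ‖E (x : K)‖ ≤ B + C * s → x ∈ S') →
    ‖∑ x ∈ S, g (Ideal.Quotient.mk T x) * (F (E (x : K)) : ℂ)‖ ≤
      C * L * s * ∑ x ∈ S', ‖g (Ideal.Quotient.mk T x)‖

/-- PIECE `RiemK`: Riemann sums. `I F = (1/covol) ∫ F` over the real form `K ⊗ ℝ ⊆ Sp K`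
(for instance push forward of the Haar measure of `mixedSpace K`, or `Measure.pi` of the measures
`ofReal_* volume`, `v` real, and `volume`, `v` complex); sum over the translates of a fundamental
parallelepiped; multiplication by `w` multiplies the measure by `nrm w`. -/
def RiemK : Prop := ∃ (I : (Sp K → ℝ) → ℝ) (C : ℝ), 1 ≤ C ∧
  (∀ (F : Sp K → ℝ) (L B : ℝ), 0 ≤ L → 0 ≤ B → LipF L B F → ∀ S : Finset (𝓞 K),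
    (∀ x : 𝓞 K, F (E (x : K)) ≠ 0 → x ∈ S) →
    |∑ x ∈ S, F (E (x : K)) - I F| ≤ C * L * (B + 1) ^ Module.finrank ℚ K) ∧
  (∀ (F : Sp K → ℝ) (L B : ℝ), LipF L B F → ∀ w : Sp K, RF w →
    I (fun z => F (w * z)) = I F / nrm w) ∧
  (∀ (F G : Sp K → ℝ) (L B : ℝ), LipF L B F → LipF L B G → ∀ a b : ℝ,
    I (fun z => a * F z + b * G z) = a * I F + b * I G) ∧
  (∀ (F : Sp K → ℝ) (L B : ℝ), LipF L B F → (∀ z, 0 ≤ F z) → 0 ≤ I F) ∧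
  (∀ (F : Sp K → ℝ) (L B : ℝ), LipF L B F → (∀ z, 0 ≤ F z) → (∃ z, RF z ∧ F z ≠ 0) → 0 < I F)

/-- PIECE `LipX`: the functions used in the slots are uniformly Lipschitz in unit scale. If
`ρ z ≠ 0`, `‖z - z'‖ ≤ c₁/2` then `|z'_v| ≥ c₁/2`; if `ρ z Ψ(w z) ≠ 0` then `|w_v| ≤ C`. -/
def LipX : Prop := ∀ ρ Ψ : Sp K → ℝ, Adm ρ → Adm Ψ → ∃ L B : ℝ, 0 ≤ L ∧ 0 ≤ B ∧
  (∀ w : Sp K, LipF L B (fun z => ρ z / nrm z * Ψ (w * z))) ∧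
  (∀ w w' : Sp K, LipF L B (fun z => ρ z * Ψ (w * z⁻¹) * Ψ (w' * z⁻¹))) ∧
  LipF L B (fun z => ρ z / nrm z) ∧ LipF L B ρ ∧ LipF L B (fun z => Ψ z / nrm z)

/-- PIECE `PlatK`: plateau functions. -/
def PlatK : Prop := ∀ c₁ c₂ : ℝ, 0 < c₁ → c₁ ≤ c₂ → ∃ Ψ : Sp K → ℝ, Adm Ψ ∧
  ∀ z : Sp K, (∀ v, c₁ ≤ ‖z v‖ ∧ ‖z v‖ ≤ c₂) → Ψ z = 1

/-- PIECE `BumpK`: small windows. -/
def BumpK : Prop := ∀ (z₀ : Sp K) (θ : ℝ), RF z₀ → 0 < θ → ∃ Ψ : Sp K → ℝ, Adm Ψ ∧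
  ∀ z : Sp K, Ψ z ≠ 0 → ‖z - z₀‖ ≤ θ

/-! ## 3. Ideals -/

/-- PIECE `PhiK`: units of the quotients. (1) surjectivity of `(𝓞/IJ)ˣ → (𝓞/I)ˣ`; (2) its kernel
has `N J` elements if all primes dividing `J` divide `I`. -/
def PhiK : Prop :=
  (∀ I J : Ideal (𝓞 K), I ≠ ⊥ → J ≠ ⊥ → ∀ x : 𝓞 K, cop x I → ∃ y : 𝓞 K, cop y (I * J) ∧ y - x ∈ I) ∧
  (∀ I J : Ideal (𝓞 K), I ≠ ⊥ → J ≠ ⊥ → PD J I → phi (I * J) = phi I * nm J) ∧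
  (∀ I : Ideal (𝓞 K), I ≠ ⊥ → 0 < phi I)

/-- PIECE `MeanK`: means of the periodic functions in the slot estimates. `T = M q₀ h`, where all
primes of `q₀` divide `M` and `h` is prime to `M`.
(1) the classes modulo `q₀` are equidistributed among the `x` prime to `M`; (2) the same for
classes modulo `q₀ h` (`κ` prime to `q₀`); (3) `h ∣ x`; (4) a nontrivial additive character modulo
`h`. All by the Chinese remainder theorem and `PhiK` (1) (translation by a unit congruent to ...). -/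
def MeanK : Prop := ∀ M q₀ h : Ideal (𝓞 K), M ≠ ⊥ → q₀ ≠ ⊥ → h ≠ ⊥ → PD q₀ M → IsCoprime h M →
  ∀ [Fintype (𝓞 K ⧸ M * q₀ * h)] (out : 𝓞 K ⧸ M * q₀ * h → 𝓞 K),
  (∀ q, Ideal.Quotient.mk (M * q₀ * h) (out q) = q) →
  (∀ κ : 𝓞 K, cop κ q₀ → ∑ q, (ind (cop (out q) M ∧ out q - κ ∈ q₀ * h) -
    ind (cop (out q) M) / (phi q₀ * nm h)) = 0) ∧
  (∑ q, (ind (cop (out q) M ∧ out q ∈ h) - ind (cop (out q) M) / nm h) = 0) ∧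
  (∀ (κ : 𝓞 K) (χ : AddChar (𝓞 K) ℂ), h ≤ cond χ → (∃ x, χ x ≠ 1) →
    ∑ q, ((ind (cop (out q) M ∧ out q - κ ∈ q₀) : ℝ) : ℂ) * χ (out q) = 0) ∧
  (0 < ∑ q, ind (cop (out q) M)) ∧
  (∀ x y : 𝓞 K, x - y ∈ M * q₀ * h → (cop x M ↔ cop y M))

/-- PIECE `RoughTauK`. -/
def RoughTauK : Prop := ∀ (w : ℕ) (I : Ideal (𝓞 K)), 2 ≤ w → I ≠ ⊥ →
  (∀ p : Ideal (𝓞 K), p.IsPrime → p ≠ ⊥ → p ∣ I → w ≤ Ideal.absNorm p) →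
  nd I ≤ 2 ^ Nat.log w (Ideal.absNorm I)

/-- PIECE `IdCountK`: at most `C Q` ideals of norm `≤ Q`
(`NumberField.Ideal.tendsto_norm_le_div_atTop`), and the tail of `∑ N(h)^(-3/2)` (dyadic). -/
def IdCountK : Prop := ∃ C : ℝ, 1 ≤ C ∧
  (∀ (Q : ℝ) (S : Finset (Ideal (𝓞 K))), 1 ≤ Q → (∀ I ∈ S, I ≠ ⊥ ∧ nm I ≤ Q) →
    (S.card : ℝ) ≤ C * Q) ∧
  (∀ (w : ℝ) (S : Finset (Ideal (𝓞 K))), 1 ≤ w → (∀ I ∈ S, I ≠ ⊥ ∧ w ≤ nm I) →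
    ∑ I ∈ S, 1 / (nm I) ^ (3 / 2 : ℝ) ≤ C / w ^ (1 / 2 : ℝ))

/-- PIECE `UnitFin`: boundedly many elements of a slot generate a given ideal: the quotients are
units `u` with `|u|_v ≤ c₂/c₁` (`LatK` (a)). -/
def UnitFin : Prop := ∀ ρ : Sp K → ℝ, Adm ρ → ∃ C : ℝ, ∀ (D : ℝ) (I : Ideal (𝓞 K))
  (S : Finset (𝓞 K)), 0 < D → (∀ x ∈ S, ρ (D⁻¹ • E (x : K)) ≠ 0 ∧ Ideal.span {x} = I) →
  (S.card : ℝ) ≤ C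

/-- PIECE `CharK`: the characters modulo `τ` (`AddChar.sum_apply_eq_ite` etc. for `𝓞 K ⧸ τ`). -/
def CharK : Prop := ∀ τ : Ideal (𝓞 K), τ ≠ ⊥ → ∃ 𝒳 : Finset (AddChar (𝓞 K) ℂ),
  (∀ χ, χ ∈ 𝒳 ↔ τ ≤ cond χ) ∧ (𝒳.card : ℝ) = nm τ ∧
  (∀ x : 𝓞 K, ∑ χ ∈ 𝒳, χ x = ((nm τ * ind (x ∈ τ) : ℝ) : ℂ)) ∧ ∀ χ ∈ 𝒳, ∀ x, ‖χ x‖ = 1

/-- PIECE `LSd`: the large sieve inequality on the `d`-dimensional torus. Duality: it is enough to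
bound `∑_n W(n) |∑_i c_i e(n·θ_i)|²` with the Fejér weights `W(n) = ∏_k max(0, 1 - |n_k|/(2N)) ≥ 2^(-d)` on
the box; this is `∑_{i,j} c_i c̄_j ∏_k F(θ_i,k - θ_j,k)`, `0 ≤ F(t) ≤ min(2N, 1/(8 N ‖t‖²))`; and
`∑_j ∏_k F(θ_i,k - θ_j,k) ≤ ∏_k ∑_m min(2N, C/(N δ² m²)) ≤ (C (N + 1/δ))^d` (one `j` in each cell of side
`δ/2`). -/
def LSd : Prop := ∀ d : ℕ, ∃ C : ℝ, 1 ≤ C ∧ ∀ (N δ : ℝ) (ι : Type) [Fintype ι] (θ : ι → Fin d → ℝ),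
  1 ≤ N → 0 < δ → δ ≤ 1 →
  (∀ i j, i ≠ j → ∀ m : Fin d → ℤ, ∃ k, δ ≤ |θ i k - θ j k - m k|) →
  ∀ (S : Finset (Fin d → ℤ)) (a : (Fin d → ℤ) → ℂ), (∀ n ∈ S, ∀ k, |(n k : ℝ)| ≤ N) →
    ∑ i, ‖∑ n ∈ S, a n * Complex.exp (2 * Real.pi * Complex.I * ((∑ k, (n k : ℝ) * θ i k : ℝ) : ℂ))‖ ^ 2
      ≤ C * (N + 1 / δ) ^ d * ∑ n ∈ S, ‖a n‖ ^ 2

/-- the large sieve inequality for `𝓞 K`. -/
def LSieveK : Prop := ∃ C : ℝ, 1 ≤ C ∧ ∀ (B R : ℝ), 1 ≤ B → 1 ≤ R →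
  ∀ 𝒳 : Finset (AddChar (𝓞 K) ℂ), (∀ χ ∈ 𝒳, ∀ x, ‖χ x‖ = 1) →
  (∀ χ ∈ 𝒳, ∀ χ' ∈ 𝒳, χ ≠ χ' → ∃ I : Ideal (𝓞 K), I ≠ ⊥ ∧ nm I ≤ R ∧ ∀ x ∈ I, χ x = χ' x) →
  ∀ (S : Finset (𝓞 K)) (a : 𝓞 K → ℂ), (∀ x ∈ S, ‖E (x : K)‖ ≤ B) →
    ∑ χ ∈ 𝒳, ‖∑ x ∈ S, a x * χ x‖ ^ 2 ≤
      C * (B ^ Module.finrank ℚ K + R) * ∑ x ∈ S, ‖a x‖ ^ 2

/-- PIECE `LSieveKOf`. `ℤ`-basis `ω` of `𝓞 K`, `χ(ω_i) = e(θ_i)`; the coordinates of `x ∈ S` are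
`≤ C B`. Spacing `δ = c R^(-1/d)`: if `χ ≠ χ'` agree on `I`, take `t ∈ I`, `‖E t‖ ≤ C s`, `s^d = R`
(`LatK` (b)), `t ω_i = ∑ m_ij ω_j`, `|m_ij| ≤ C s`; if `θ_j - θ'_j = n_j + η_j`, `|η_j| < δ`, `n_j` integers,
then `∑_j m_ij η_j` is an integer of absolute value `< 1`, so `0` for all `i`; the matrix `m` is
regular, so `η = 0`, `χ = χ'`. -/
def LSieveKOf : Prop := LSd → LatK K → LSieveK K

/-- PIECE `DivProdK` (as `DivProdZ`; `h ∣ x y ⟹ h/g ∣ y` for `g = gcd(h, (x)) = h ⊔ (x)`). -/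
def DivProdK : Prop :=
  ∀ (S : Finset (𝓞 K)) (p : 𝓞 K → ℝ) (h : Ideal (𝓞 K)) (B : ℝ) (j : ℕ), h ≠ ⊥ → 0 ≤ B →
    (∀ x, 0 ≤ p x) →
    (∀ g, g ∣ h → ∑ x ∈ S, p x * ind (x ∈ g) ≤ B / nm g) →
    exk j S p (fun x => ind (∏ i, x i ∈ h)) ≤ (nd h) ^ j * B ^ j / nm h

/-! ## 4. One slot -/

/-- PIECE `DivXK`: `|∑ pr x ind (x ∈ h) - 1/N h| ≤ C N(h)/D` if `h` is prime to `M` (`AbelK`, `MeanK` with
`q₀ = 1`, `s = C N(h)`), and `0` otherwise; for large `h` by `LatK` (c), (d): no nonzero points of `h` if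
`N(h)^(1/d) > c₂ D`, otherwise at most `C D^d/N(h)` points of weight `≤ C D^(-d)`. The sum of the
weights is `(φ-density of M) I(ρ/nrm) + O(1/D)` (`RiemK`, `LipX` in unit scale). -/
def DivXK : Prop := ∀ (ρ : Sp K → ℝ) (M : Ideal (𝓞 K)), Adm ρ → M ≠ ⊥ → ∃ C D₀ : ℝ, 1 ≤ C ∧ 1 ≤ D₀ ∧
  ∀ D : ℝ, D₀ ≤ D → ∀ S : Finset (𝓞 K), IsSlot ρ M D S →
    S.Nonempty ∧ 1 / C ≤ ∑ x ∈ S, wl ρ D x ∧ ∑ x ∈ S, wl ρ D x ≤ C ∧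
    (∀ x ∈ S, pr (wl ρ D) S x ≤ C / D ^ Module.finrank ℚ K) ∧
    ∀ h : Ideal (𝓞 K), h ≠ ⊥ → ∑ x ∈ S, pr (wl ρ D) S x * ind (x ∈ h) ≤ C / nm h ∧
      (C * nm h ^ 2 ≤ D → ∑ x ∈ S, pr (wl ρ D) S x * ind (x ∈ h) ≤ 2 / nm h)

/-- PIECE `EquiXK`: residue classes modulo `q₀` in one slot (`AbelK`, `MeanK` with `h = 1`, `LipX`). -/
def EquiXK : Prop := ∀ (ρ Ψ : Sp K → ℝ) (M q₀ : Ideal (𝓞 K)), Adm ρ → Adm Ψ → M ≠ ⊥ → q₀ ≠ ⊥ →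
  PD q₀ M → ∃ C D₀ : ℝ, 1 ≤ C ∧ 1 ≤ D₀ ∧ ∀ D : ℝ, D₀ ≤ D → ∀ S : Finset (𝓞 K), IsSlot ρ M D S →
    ∀ (κ : 𝓞 K) (w : Sp K), cop κ q₀ →
    |∑ x ∈ S, pr (wl ρ D) S x * Ψ (w * E (x : K)) * ind (x - κ ∈ q₀) -
      (∑ x ∈ S, pr (wl ρ D) S x * Ψ (w * E (x : K))) / phi q₀| ≤ C / D

/-- PIECE `TwistXK`: nontrivial additive characters modulo `h`, prime to `M`, in one slot (`AbelK`,
`MeanK` (4), `LipX`). -/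
def TwistXK : Prop := ∀ (ρ Ψ : Sp K → ℝ) (M q₀ : Ideal (𝓞 K)), Adm ρ → Adm Ψ → M ≠ ⊥ → q₀ ≠ ⊥ →
  PD q₀ M → ∃ C D₀ : ℝ, 1 ≤ C ∧ 1 ≤ D₀ ∧ ∀ D : ℝ, D₀ ≤ D → ∀ S : Finset (𝓞 K), IsSlot ρ M D S →
    ∀ (κ : 𝓞 K) (w : Sp K) (h : Ideal (𝓞 K)) (χ : AddChar (𝓞 K) ℂ), h ≠ ⊥ → IsCoprime h M →
    h ≤ cond χ → (∀ x, ‖χ x‖ = 1) → (∃ x, χ x ≠ 1) →
    ‖∑ x ∈ S, ((pr (wl ρ D) S x * Ψ (w * E (x : K)) * ind (x - κ ∈ q₀) : ℝ) : ℂ) * χ x‖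
      ≤ C * nm h / D

/-- PIECE `CCountK`: residue classes modulo `q₀ τ`, any Lipschitz function (`AbelK`, `MeanK` (2), `LatK`
(d) for the sum of `|g|`; `N(M q₀ τ) ≤ (C s)^d`). -/
def CCountK : Prop := ∀ M q₀ : Ideal (𝓞 K), M ≠ ⊥ → q₀ ≠ ⊥ → PD q₀ M → ∃ C : ℝ, 1 ≤ C ∧
  ∀ (τ : Ideal (𝓞 K)) (s : ℝ) (κ : 𝓞 K), τ ≠ ⊥ → IsCoprime τ M → 0 < s →
    s ^ Module.finrank ℚ K = nm τ → cop κ q₀ → ∀ (F : Sp K → ℝ) (L B : ℝ), 0 ≤ L → 0 ≤ B →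
    LipF L B F → ∀ S : Finset (𝓞 K), (∀ x : 𝓞 K, F (E (x : K)) ≠ 0 → x ∈ S) →
    |∑ x ∈ S, F (E (x : K)) * ind (cop x M ∧ x - κ ∈ q₀ * τ) -
      (∑ x ∈ S, F (E (x : K)) * ind (cop x M)) / (phi q₀ * nm τ)| ≤
      C * L * s * (1 + B / s) ^ Module.finrank ℚ K

/-- PIECE `CSumK`: total weight of the `c`-slot. -/
def CSumK : Prop := ∀ (ρ : Sp K → ℝ) (M : Ideal (𝓞 K)), Adm ρ → M ≠ ⊥ → ∃ C D₀ : ℝ, 1 ≤ C ∧ 1 ≤ D₀ ∧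
  ∀ D : ℝ, D₀ ≤ D → ∀ S : Finset (𝓞 K), IsSlot ρ M D S → S.Nonempty ∧
    D ^ Module.finrank ℚ K / C ≤ ∑ x ∈ S, wu ρ D x ∧
    ∑ x ∈ S, wu ρ D x ≤ C * D ^ Module.finrank ℚ K

/-! ## 5. The sieve bound and the core estimate -/

/-- the variance bound on average over the moduli `∏ y`. -/
def SieveBdK : Prop :=
  ∀ (n k e₀ : ℕ) (ρ₁ ρ₂ Ψ : Sp K → ℝ) (ε : ℝ), e₀ * k < n → 1 ≤ e₀ → Adm ρ₁ → Adm ρ₂ → Adm Ψ →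
    0 < ε → ∃ w : ℕ, ∀ (M q₀ : Ideal (𝓞 K)) (H : ℝ), M ≠ ⊥ → SmallDvd w M → q₀ ≠ ⊥ → PD q₀ M →
      1 ≤ H → ∃ D₀ : ℝ, 1 ≤ D₀ ∧ ∀ D : ℝ, D₀ ≤ D → ∀ X Y : Finset (𝓞 K), IsSlot ρ₁ M D X →
      IsSlot ρ₂ M (H * D ^ e₀) Y → ∀ (κ : 𝓞 K) (z : Sp K),
    exk k Y (pr (wl ρ₂ (H * D ^ e₀)) Y) (fun y => nm (Ideal.span {∏ i, y i}) *
      exk n X (pr (wl ρ₁ D) X) (fun x => exk n X (pr (wl ρ₁ D) X) (fun x' =>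
        (Ψ (z * E ((∏ i, x i : 𝓞 K) : K)) * ind (∏ i, x i - κ ∈ q₀)) *
        (Ψ (z * E ((∏ i, x' i : 𝓞 K) : K)) * ind (∏ i, x' i - κ ∈ q₀)) *
        ind (∏ i, x i - ∏ i, x' i ∈ Ideal.span {∏ i, y i})))) ≤
      (exk n X (pr (wl ρ₁ D) X) (fun x =>
        Ψ (z * E ((∏ i, x i : 𝓞 K) : K)) * ind (∏ i, x i - κ ∈ q₀))) ^ 2 + ε

/-- PIECE `SieveBdOfK`. As `SieveBdOf` (`T9h42/QD/SieveBd.lean`). `A_f = ∑_{∏ x = f} ∏ pr(x_i) Ψ(z E f)` for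
`f ≡ κ (q₀)`, `Â(χ) = ∑ A_f χ(f)`. For `τ = (∏ y)`, `CharK` gives
`N τ ∑_{f ≡ f' (τ)} A_f A_f' = ∑_{χ : τ ≤ cond χ} |Â(χ)|² = ∑_{h ∣ τ} ∑_{cond χ = h} |Â(χ)|²`; `h = 1` gives `(∑ A)²`.
All `h ∣ τ` are prime to `M`: `h = 1` or all prime factors of `h` have norm `> w`. So the difference is
`≤ ∑_{N h > w} P(∏ y ∈ h) ∑_{cond χ = h} |Â(χ)|²`. `D₁ = D^(1/4)`.
(a) `N h ≤ D₁`: condition on `x_2, ..., x_n`, `v' = ∏_{i ≥ 2} x_i`; if `v' ∉ h` then `χ(v' ·)` is a nontrivial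
character modulo `h` and `TwistXK` gives `C N(h)/D` (the class of `x_1` modulo `q₀` is determined by
`x_1 v' ≡ κ`); so `|Â(χ)| ≤ P(v' ∈ h) + C N(h)/D ≤ (2 nd h)^(n-1)/N h + C N(h)/D` (`DivProdK`, `B = 2`);
`P(∏ y ∈ h) ≤ (2 nd h)^k/N h`; `nd h ≤ N(h)^(1/log₂ w)` (`RoughTauK`): the sum over `w < N h ≤ D₁` is at
most `2^(2n+k+1) ∑ N(h)^(-7/4) + C' D₁^5/D²` for large `w` (`IdCountK`).
(b) `Q < N h ≤ 2Q`, `D₁ ≤ Q ≤ C D^(e₀ k d) ≤ C D^((n-1)d)`: `P(∏ y ∈ h) ≤ (C nd h)^k/N h`, `LSieveK` with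
`B = C D^n`, `R = 4Q²`, `∑ A_f² ≤ max A_f ≤ (C nd(f)/D^d)^n` (`UnitFin`; `DivXK`: `pr ≤ C/D^d`), so the block
is at most `C D^(small) (1/Q) (D^(nd) + Q²)/D^(nd)`. -/
def SieveBdOfK : Prop := LatK K → LSieveK K → RoughTauK K → IdCountK K → UnitFin K → CharK K →
  DivProdK K → DivXK K → TwistXK K → SieveBdK K

/-- few pairs `∏ u`, `∏ y` are not coprime. -/
def NonCopK : Prop :=
  ∀ (j k e₀ : ℕ) (ρ₁ ρ₂ : Sp K → ℝ) (ε : ℝ), 1 ≤ e₀ → Adm ρ₁ → Adm ρ₂ → 0 < ε → ∃ w : ℕ,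
    ∀ (M : Ideal (𝓞 K)) (H : ℝ), M ≠ ⊥ → SmallDvd w M → 1 ≤ H → ∃ D₀ : ℝ, 1 ≤ D₀ ∧
    ∀ D : ℝ, D₀ ≤ D → ∀ X Y : Finset (𝓞 K), IsSlot ρ₁ M D X → IsSlot ρ₂ M (H * D ^ e₀) Y →
    exk j X (pr (wl ρ₁ D) X) (fun u => exk k Y (pr (wl ρ₂ (H * D ^ e₀)) Y) (fun y =>
      ind (¬ cop (∏ i, u i) (Ideal.span {∏ i, y i})))) ≤ ε

/-- PIECE `NonCopOfK`. A common prime ideal `p` contains some `u_i` and some `y_i`, `N p > w` (`p ∤ M`).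
By `DivXK` the probability is `≤ j k (∑_{N p > w} 4/N(p)² + ∑_{N(p)² > D/C} C²/N(p)²)`; `IdCountK`. -/
def NonCopOfK : Prop := DivXK K → IdCountK K → NonCopK K

/-- equidistribution of `A₀ ∏ u ∏ v` modulo `q₀ ∏ y` in the classes `G c`, for most `u, y, c`. -/
def CoreSK : Prop :=
  ∀ (j n k e₀ c₀ : ℕ) (q₀ : Ideal (𝓞 K)) (ρ₁ ρ₂ ρ₃ Ψ : Sp K → ℝ) (ε : ℝ), e₀ * k < n →
    e₀ * k < c₀ → 1 ≤ e₀ → q₀ ≠ ⊥ → Adm ρ₁ → Adm ρ₂ → Adm ρ₃ → Adm Ψ → 0 < ε → ∃ w : ℕ,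
    ∀ (M : Ideal (𝓞 K)) (H : ℝ) (A₀ G : 𝓞 K), M ≠ ⊥ → SmallDvd w M → PD q₀ M → 1 ≤ H → A₀ ≠ 0 →
      G ≠ 0 → cop (A₀ * G) q₀ → PD (Ideal.span {A₀ * G}) M → ∃ D₀ : ℝ, 1 ≤ D₀ ∧
    ∀ D : ℝ, D₀ ≤ D → ∀ X Y C : Finset (𝓞 K), IsSlot ρ₁ M D X → IsSlot ρ₂ M (H * D ^ e₀) Y →
      IsSlot ρ₃ M (D ^ c₀) C →
    exk j X (pr (wl ρ₁ D) X) (fun u => exk k Y (pr (wl ρ₂ (H * D ^ e₀)) Y) (fun y =>
      ∑ c ∈ C, pr (wu ρ₃ (D ^ c₀)) C c *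
      |phi q₀ * nm (Ideal.span {∏ i, y i}) * exk n X (pr (wl ρ₁ D) X) (fun v =>
          Ψ (E (((A₀ * (∏ i, u i) * ∏ i, v i : 𝓞 K) : K) / ((G * c : 𝓞 K) : K))) *
            ind (A₀ * (∏ i, u i) * (∏ i, v i) - G * c ∈ q₀ * Ideal.span {∏ i, y i})) -
        exk n X (pr (wl ρ₁ D) X) (fun v =>
          Ψ (E (((A₀ * (∏ i, u i) * ∏ i, v i : 𝓞 K) : K) / ((G * c : 𝓞 K) : K))))|)) ≤ ε

/-- PIECE `CoreSOfK` (cf. `T9h91/QD/CoreS.lean`). Fix `u`, `y`; `τ = (∏ y)`, `B = φ(q₀) N τ`, `s^d = N τ`,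
`D' = D^c₀`; `S(c)`, `p(c)` the two expectations.
If `τ` and `∏ u` are not coprime: `E_c |B S - p| ≤ B E_c S + 1 ≤ C` (`CCountK` with `F = ρ₃(·/D')`), use
`NonCopK`. If they are coprime, `A₀ u v ≡ G c ≡ A₀ u v'` implies `v ≡ v' (q₀ τ)`, and for fixed `v, v'` the
function of `c` is `F(z) = ρ₃(z/D') Ψ(w z⁻¹) Ψ(w' z⁻¹)`, Lipschitz with constant `C/D'` (`LipX`), so by
`CCountK` (relative error `C (s/D')/N τ`, as `s ≤ D'`)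
`E_c (B S - p)² = E_c (B E_{v,v'}[1(v ≡ v' (q₀ τ)) Ψ Ψ'] - p(c)²) + O((s/D') (B P(v ≡ v' (τ)) + 1))`.
Average over `y`; `E_y N(τ) P(v ≡ v' (τ)) ≤ 2` by `SieveBdK` (`q₀ = 1`, `Ψ` a plateau function, `z = D^(-n)`),
and `s/D' ≤ C H^k/D`. Split `v ≡ v' (q₀)` according to the `φ(q₀)` unit classes `κ`; `SieveBdK` for each
`c`, `κ` (`z = E(A₀ u/(G c))`) gives `φ(q₀) ∑_κ (P(Ψ, v ≡ κ)² + ε')`, and
`P(Ψ, v ≡ κ) = p(c)/φ(q₀) + O(1/D)` by `EquiXK` for the first coordinate of `v`. -/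
def CoreSOfK : Prop := LipX K → PlatK K → LatK K → DivXK K → CSumK K → SieveBdK K → NonCopK K →
  CCountK K → EquiXK K → CoreSK K

end lattice

/-! ## 6. Absorbers -/

/-- absorber: `e i`, `i ≠ i₀`, are units, `e i₀ = π`, and the vectors `(log |e i|_v)_v` are linearly
independent. -/
structure Absb (K : Type) [Field K] [NumberField K] where
  i₀ : InfinitePlace K
  e : InfinitePlace K → 𝓞 K
  ne : ∀ i, e i ≠ 0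
  unit : ∀ i, i ≠ i₀ → IsUnit (e i)
  reg : LinearIndependent ℝ (fun (i v : InfinitePlace K) => Real.log (v (e i : K)))

section abs

variable {K : Type} [Field K] [NumberField K]

/-- the element with exponents `k`. -/
noncomputable def Absb.el (a : Absb K) (k : InfinitePlace K → ℤ) : K :=
  ∏ i, (a.e i : K) ^ k i

/-- the prime-like element of the absorber. -/
def Absb.pi (a : Absb K) : 𝓞 K := a.e a.i₀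

/-- `ρ` tiles: `∑_λ ρ(λ z) = 1`. -/
def Tile (a : Absb K) (ρ : Sp K → ℝ) : Prop :=
  Adm ρ ∧ ∀ z : Sp K, (∀ v, z v ≠ 0) → ∃ S : Finset (InfinitePlace K → ℤ),
    (∀ k, ρ (E (a.el k) * z) ≠ 0 → k ∈ S) ∧ ∑ k ∈ S, ρ (E (a.el k) * z) = 1

/-- weight of the solutions of `A ε x + lam y = ε' c` with `A ε x/(ε' c)` in the window. -/
noncomputable def Wn (a a' : Absb K) (Λ Λ' : Finset (InfinitePlace K → ℤ)) (Ψ : Sp K → ℝ)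
    (A lam : 𝓞 K) (κ : ℝ) (x y c : 𝓞 K) : ℝ :=
  κ * nrm (E ((lam * y : 𝓞 K) : K)) * ∑ k ∈ Λ, ∑ k' ∈ Λ',
    ind ((A : K) * a.el k * x + lam * y = a'.el k' * c) *
      Ψ (E ((A : K) * a.el k * x / (a'.el k' * c)))

end abs

section final

variable (K : Type) [Field K] [NumberField K]

/-- PIECE `TileEx`: products of hat functions `max(0, 1-|t|)` of the coordinates of `(log |z_v|)_v` in
the basis `reg` (`ρ = 0` if some `z_v = 0`). -/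
def TileEx : Prop := ∀ a : Absb K, ∃ ρ, Tile a ρ

/-- PIECE `AbsEx`: Dirichlet's unit theorem (`Units.regulator`, `Units.logEmbedding`) and `|N π| ≥ 2`. -/
def AbsEx : Prop := ∀ p : 𝓞 K, p ≠ 0 → ¬ IsUnit p → ∃ a : Absb K, a.pi = p

/-- PIECE `LatLog`: boundedly many `λ` with all `|λ z|_v` in `[c₁, c₂]` (coordinates in the basis `reg`). -/
def LatLog : Prop := ∀ (a : Absb K) (c₁ c₂ : ℝ), 0 < c₁ → ∃ B : ℕ, ∀ z : Sp K, (∀ v, z v ≠ 0) →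
  {k : InfinitePlace K → ℤ | ∀ v, c₁ ≤ ‖(E (a.el k) * z) v‖ ∧ ‖(E (a.el k) * z) v‖ ≤ c₂}.Finite ∧
  ∀ S : Finset (InfinitePlace K → ℤ),
    (∀ k ∈ S, ∀ v, c₁ ≤ ‖(E (a.el k) * z) v‖ ∧ ‖(E (a.el k) * z) v‖ ≤ c₂) → S.card ≤ B

/-- PIECE `AbsInt`: `N(el k) = N(π)^(k i₀)`; `π` is not a unit (otherwise the log vectors lie in a
hyperplane); `el k` is integral for `k i₀ ≥ 0`, with ideal `(π)^(k i₀)`. -/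
def AbsInt : Prop := ∀ a : Absb K, 1 < nrm (E (a.pi : K)) ∧ ¬ IsUnit a.pi ∧
  ∀ k : InfinitePlace K → ℤ, nrm (E (a.el k)) = nrm (E (a.pi : K)) ^ (k a.i₀) ∧ a.el k ≠ 0 ∧
    (0 ≤ k a.i₀ → ∃ g : 𝓞 K, (g : K) = a.el k ∧ Ideal.span {g} = Ideal.span {a.pi} ^ (k a.i₀).toNat)

/-- `λ` + (free slots) is equidistributed. -/
def CircleK : Prop := ∀ (a : Absb K) (n : ℕ) (ρ Ψ : Sp K → ℝ), 1 ≤ n → Tile a ρ → Adm Ψ →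
  ∃ C₁ : ℝ, 0 < C₁ ∧ ∀ M : Ideal (𝓞 K), M ≠ ⊥ → ∃ C D₀ : ℝ, 1 ≤ C ∧ 1 ≤ D₀ ∧ ∀ D : ℝ, D₀ ≤ D →
    ∀ X : Finset (𝓞 K), IsSlot ρ M D X → ∀ (z : Sp K), RF z → ∀ Λ : Finset (InfinitePlace K → ℤ),
    (∀ k, ∀ v ∈ Fintype.piFinset (fun _ : Fin n => X),
      Ψ (E (a.el k) * (z * E ((∏ i, v i : 𝓞 K) : K))) ≠ 0 → k ∈ Λ) →
    |∑ k ∈ Λ, exk n X (pr (wl ρ D) X) (fun v =>
      Ψ (E (a.el k) * (z * E ((∏ i, v i : 𝓞 K) : K)))) - C₁| ≤ C / D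

/-- PIECE `CircleOfK`. `C₁ = I(Ψ/nrm)/I(ρ/nrm)`. Fix `v_2, ..., v_n`, `w = z v_2 ⋯ v_n`; for each `k`
(boundedly many are needed, `LatLog`) the sum over `v_1` of `ρ(v/D)/nrm(v) Ψ(λ w v)`, `v` prime to `M`, is
`γ I(ρ(·/D)/nrm Ψ(λ w ·)) + O(1/D)` (`AbelK` with `MeanK` for `T = M`: `g = ind (cop) - γ`; `LipX`; `RiemK`);
`I(ρ(·/D)/nrm Ψ(λ w ·)) = I(ρ((λ w D)⁻¹ ·) Ψ/nrm)` and `∑_λ ρ((λ w D)⁻¹ z) = 1` (`λ ↦ λ⁻¹`). -/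
def CircleOfK : Prop := LatK K → AbelK K → MeanK K → RiemK K → LipX K → DivXK K → LatLog K → CircleK K

/-- the core estimate: `2r` of the `x`-slots (`u`), all but one (`2r`) of the `y`-slots (`t`) and `c`
are fixed, `(2r+1)^2 - 2r` `x`-slots (`v`) and one `y`-slot are free. -/
def CoreN : Prop :=
  ∀ (a a' : Absb K) (ρ₁ ρ₂ ρ₃ : Sp K → ℝ) (r : ℕ) (ε : ℝ) (z₀ : Sp K), Tile a ρ₁ → Tile a' ρ₂ →
    Adm ρ₃ → cop a.pi (Ideal.span {a'.pi}) → 1 ≤ r → 0 < ε → RF z₀ → RF (1 - z₀) →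
    ∃ θ : ℝ, 0 < θ ∧
    ∀ (Ψ : Sp K → ℝ) (lam : 𝓞 K), Adm Ψ → (∀ z, Ψ z ≠ 0 → ‖z - z₀‖ ≤ θ) → lam ≠ 0 →
      cop lam (Ideal.span {a.pi * a'.pi}) →
    ∃ w : ℕ, ∀ A : 𝓞 K, A ≠ 0 → cop A (Ideal.span {lam * (a.pi * a'.pi)}) →
      SmallDvd w (Ideal.span {A * (lam * (a.pi * a'.pi))}) →
    ∃ H₀ : ℝ, 1 ≤ H₀ ∧ ∀ H : ℝ, H₀ ≤ H → ∃ (Λ Λ' : Finset (InfinitePlace K → ℤ)) (D₀ : ℝ),
      (∀ k ∈ Λ, 1 ≤ k a.i₀) ∧ (∀ k ∈ Λ', 1 ≤ k a'.i₀) ∧ 1 ≤ D₀ ∧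
    ∀ D : ℝ, D₀ ≤ D → ∀ X Y C : Finset (𝓞 K),
      IsSlot ρ₁ (Ideal.span {A * (lam * (a.pi * a'.pi))}) D X →
      IsSlot ρ₂ (Ideal.span {A * (lam * (a.pi * a'.pi))}) (H * D ^ (2 * r + 1)) Y →
      IsSlot ρ₃ (Ideal.span {A * (lam * (a.pi * a'.pi))}) (D ^ (2 * r + 1) ^ 2) C →
    ∃ κ : ℝ, 0 < κ ∧
      exk (2 * r) X (pr (wl ρ₁ D) X) (fun u =>
        exk (2 * r) Y (pr (wl ρ₂ (H * D ^ (2 * r + 1))) Y) (fun t =>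
        ∑ c ∈ C, pr (wu ρ₃ (D ^ (2 * r + 1) ^ 2)) C c *
        |exk ((2 * r + 1) ^ 2 - 2 * r) X (pr (wl ρ₁ D) X) (fun v =>
          exk 1 Y (pr (wl ρ₂ (H * D ^ (2 * r + 1))) Y) (fun y =>
          Wn a a' Λ Λ' Ψ A lam κ ((∏ i, u i) * ∏ i, v i) ((∏ i, t i) * ∏ i, y i) c)) - 1|)) ≤ ε

/-- PIECE `CoreNOf`. `s = 2r+1`, `n = s² - 2r`, `E₀ = H D^s`, `τ = ∏ t`, `M = (A lam π π')`, `Z` the total
weight of `Y`, `Δ = λ' c - A λ u v` (`λ = a.el k`, `λ' = a'.el k'`), `σ = A λ u v/(λ' c)`,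
`ζ = E(λ' c/(lam τ))/E₀`.
As `nrm(lam τ y) pr(y) = nrm(lam τ) ρ₂(E y/E₀)/Z`, the inner expectation is
`𝒲 = (κ nrm(lam τ)/Z) ∑_{λ,λ'} E_v[Ψ(σ) 1(lam τ ∣ Δ, Δ/(lam τ) prime to M) ρ₂(ζ (1 - σ))]`
(`Δ/(lam τ)` is automatically prime to `A π π'`, as `π ∣ λ`, `π' ∣ λ'`).
On the support of `Ψ` replace `ρ₂(ζ(1-σ))` by `ρ₂(ζ(1-z₀))`: error `≤ C θ 1(ζ in a compact region)`.
With `P` the set of prime ideals dividing `lam`, `𝔡_S = ∏_{p ∈ S} p`: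
`1(lam τ ∣ Δ, Δ/(lam τ) prime to lam) = ∑_{S ⊆ P} (-1)^|S| 1(lam 𝔡_S τ ∣ Δ)`, and `CoreSK` with
`q₀ = lam 𝔡_S`, `A₀ = A λ`, `G = λ'` gives on average
`nrm(lam τ) E_v[Ψ(σ) 1(..)] = γ E_v[Ψ(σ)] + small`, `γ = ∑_S (-1)^|S| N(lam)/φ(lam 𝔡_S) = (N(lam)/φ(lam)) ∏_{p ∈ P} (1 - 1/N p) > 0`
(`PhiK` (2)). Then `∑_λ E_v[Ψ(σ)] = C₁ + O(1/D)` (`CircleK`, `z = E(A u/(λ' c))`) and
`∑_λ' ρ₂(ζ (1 - z₀)) = 1` (`Tile`). So `κ = Z/(γ C₁)` works if `θ` is small.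
Only boundedly many pairs `(λ, λ')` are needed, the bound depends only on `ρ_i`, `r`, `z₀`, `a`, `a'`
(`LatLog`: `λ'` is in `E(lam) H^s` times a fixed compact region, `λ` in `E(λ'/A)` times a fixed
compact region; in particular both have norm `> 1` if `H` is large, so `1 ≤ k i₀`, `AbsInt`);
so `w` can be chosen before `A`, `H`; the sets `Λ, Λ'` consist of all such `k`, `k'`. -/
def CoreNOf : Prop := LatK K → PhiK K → DivXK K → CSumK K → LatLog K → AbsInt K → CircleK K →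
  CoreSK K → CoreN K

end final

/-! ## 7. Flat marginals on the product space -/

section flat

variable {K : Type} [Field K] [NumberField K]

/-- the slots. -/
def Sln (X Y C : Finset (𝓞 K)) (N s : ℕ) : Ix N s → Finset (𝓞 K)
  | none => C
  | some (Sum.inl _) => X
  | some (Sum.inr _) => Y

/-- points of a slot. -/
abbrev Ptn (X Y C : Finset (𝓞 K)) (N s : ℕ) (i : Ix N s) : Type := {x : 𝓞 K // x ∈ Sln X Y C N s i}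

/-- the probabilities. -/
noncomputable def pn (ρ₁ ρ₂ ρ₃ : Sp K → ℝ) (H D : ℝ) (X Y C : Finset (𝓞 K)) (N s : ℕ) :
    ∀ i : Ix N s, Ptn X Y C N s i → ℝ
  | none => fun x => pr (wu ρ₃ (D ^ N)) C x.1
  | some (Sum.inl _) => fun x => pr (wl ρ₁ D) X x.1
  | some (Sum.inr _) => fun x => pr (wl ρ₂ (H * D ^ s)) Y x.1

end flat

/-- the count theorem. Two absorbers `a`, `a'` (`π`, `π'` coprime) are given; `ρ₁ ρ₂ ρ₃` are the shapes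
of the slots; `z₀` is the point where `σ = A ε x/(ε' c)` is localised (up to `δ`); `W` is supported on
solutions of `A ε x + lam y = ε' c`, `ε = a.el k`, `ε' = a'.el k'`, `x`, `y` products over the slots. -/
def CountN (K : Type) [Field K] [NumberField K] : Prop :=
  ∀ a a' : Absb K, cop a.pi (Ideal.span {a'.pi}) → ∃ ρ₁ ρ₂ ρ₃ : Sp K → ℝ,
    Adm ρ₁ ∧ Adm ρ₂ ∧ Adm ρ₃ ∧
  ∀ (r : ℕ) (ε δ : ℝ) (z₀ : Sp K) (lam : 𝓞 K), 1 ≤ r → 0 < ε → 0 < δ → RF z₀ → RF (1 - z₀) →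
    lam ≠ 0 → cop lam (Ideal.span {a.pi * a'.pi}) →
  ∃ w : ℕ, ∀ A : 𝓞 K, A ≠ 0 → cop A (Ideal.span {lam * (a.pi * a'.pi)}) →
    SmallDvd w (Ideal.span {A * (lam * (a.pi * a'.pi))}) →
  ∃ H₀ : ℝ, 1 ≤ H₀ ∧ ∀ H : ℝ, H₀ ≤ H → ∃ D₀ : ℝ, 1 ≤ D₀ ∧
  ∀ D : ℝ, D₀ ≤ D → ∀ X Y C : Finset (𝓞 K),
    IsSlot ρ₁ (Ideal.span {A * (lam * (a.pi * a'.pi))}) D X →
    IsSlot ρ₂ (Ideal.span {A * (lam * (a.pi * a'.pi))}) (H * D ^ (2 * r + 1)) Y →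
    IsSlot ρ₃ (Ideal.span {A * (lam * (a.pi * a'.pi))}) (D ^ (2 * r + 1) ^ 2) C →
    (∀ i a, 0 ≤ pn ρ₁ ρ₂ ρ₃ H D X Y C ((2 * r + 1) ^ 2) (2 * r + 1) i a) ∧
    (∀ i, ∑ a, pn ρ₁ ρ₂ ρ₃ H D X Y C ((2 * r + 1) ^ 2) (2 * r + 1) i a = 1) ∧
    ∃ W : (∀ i, Ptn X Y C ((2 * r + 1) ^ 2) (2 * r + 1) i) → ℝ, (∀ x, 0 ≤ W x) ∧
      (∀ x, W x ≠ 0 → ∃ k k' : InfinitePlace K → ℤ,
        (A : K) * a.el k * ((∏ i, (x (some (Sum.inl i))).1 : 𝓞 K) : K) +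
          lam * ((∏ j, (x (some (Sum.inr j))).1 : 𝓞 K) : K) = a'.el k' * ((x none).1 : K) ∧
        ‖E ((A : K) * a.el k * ((∏ i, (x (some (Sum.inl i))).1 : 𝓞 K) : K) /
          (a'.el k' * ((x none).1 : K))) - z₀‖ ≤ δ) ∧
      ∀ U : Finset (Ix ((2 * r + 1) ^ 2) (2 * r + 1)), U.card ≤ 2 * r →
        pav (pn ρ₁ ρ₂ ρ₃ H D X Y C ((2 * r + 1) ^ 2) (2 * r + 1)) (fun x =>
          |pce (pn ρ₁ ρ₂ ρ₃ H D X Y C ((2 * r + 1) ^ 2) (2 * r + 1)) U W x - 1|) ≤ ε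

/-- PIECE `SlotEx`: slots exist (finiteness, `LatK` (a)). -/
def SlotEx (K : Type) [Field K] [NumberField K] : Prop :=
  ∀ (ρ : Sp K → ℝ) (M : Ideal (𝓞 K)) (D : ℝ), Adm ρ → 0 < D → ∃ S : Finset (𝓞 K), IsSlot ρ M D S

/-- PIECE `CountOfCoreN` (bookkeeping, as `T9h77/QD/Cnt.lean`). `U ⊆ U'`, where the complement of `U'`
consists of `(2r+1)² - 2r` `x`-slots and one `y`-slot (`none ∈ U'`); `pav |pce U W - 1| ≤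
pav |pce U' W - 1|`, and the latter is the triple sum in `CoreN`. `Ψ` from `BumpK` with `θ' = min θ δ`. -/
def CountOfCoreN (K : Type) [Field K] [NumberField K] : Prop :=
  TileEx K → BumpK K → PlatK K → DivXK K → CSumK K → CoreN K → CountN K

end Pool.Agent.T9h11.NF
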